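import Mathlib

set_option autoImplicit false

namespace Pool.Agent.Results.MP_70625d_co.NoBall

open Finset

abbrev E (d : ℕ) := EuclideanSpace ℝ (Fin d)

/-- a perfect matching of `X`, given by the map sending each point to its partner -/
def IsMatching {d : ℕ} (X : Finset (E d)) (s : E d → E d) : Prop :=
  ∀ x ∈ X, s x ∈ X ∧ s x ≠ x ∧ s (s x) = x

/-- total length of the pairs (each pair is met twice in the sum over points) -/
noncomputable def weight {d : ℕ} (X : Finset (E d)) (s : E d → E d) : ℝ :=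
  (∑ x ∈ X, dist x (s x)) / 2

def IsMaxSum {d : ℕ} (X : Finset (E d)) (s : E d → E d) : Prop :=
  IsMatching X s ∧ ∀ t, IsMatching X t → weight X t ≤ weight X s

/-- the closed ball with diameter `xy` -/
def dball {d : ℕ} (x y : E d) : Set (E d) := Metric.closedBall (midpoint ℝ x y) (dist x y / 2)

def IsMinDist {d : ℕ} (X : Finset (E d)) (r : ℝ) : Prop :=
  IsLeast {t | ∃ x ∈ X, ∃ y ∈ X, x ≠ y ∧ t = dist x y} r

noncomputable def pt (d : ℕ) (x y : ℝ) : E (d + 2) :=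
  EuclideanSpace.single 0 x + EuclideanSpace.single 1 y

lemma pt_dist (d : ℕ) (x y x' y' : ℝ) :
    dist (pt d x y) (pt d x' y') = √((x - x') ^ 2 + (y - y') ^ 2) := by
  rw [EuclideanSpace.dist_eq, Fin.sum_univ_succ, Fin.sum_univ_succ]
  congr 1
  have : ∀ i : Fin d, (i.succ.succ : Fin (d + 2)) ≠ 1 := fun i e => by
    have := congrArg Fin.val e; simp at this
  simp [pt, Real.dist_eq, sq_abs, this]

lemma dball_pt (d : ℕ) (x y x' y' : ℝ) (z : E (d + 2)) (h : z ∈ dball (pt d x y) (pt d x' y')) :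
    (z 0 - x) * (z 0 - x') + (z 1 - y) * (z 1 - y') ≤ 0 := by
  rw [dball, Metric.mem_closedBall, pt_dist] at h
  have h1 := pow_le_pow_left₀ dist_nonneg h 2
  rw [div_pow, Real.sq_sqrt (by positivity), EuclideanSpace.dist_eq, Real.sq_sqrt (by positivity),
    Fin.sum_univ_succ, Fin.sum_univ_succ] at h1
  have h2 : 0 ≤ ∑ i : Fin d, dist (z i.succ.succ)
    ((midpoint ℝ (pt d x y) (pt d x' y') : E (d + 2)) i.succ.succ) ^ 2 := by positivity
  have e0 : (midpoint ℝ (pt d x y) (pt d x' y') : E (d + 2)) 0 = (x + x') / 2 := by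
    simp [midpoint_eq_smul_add, pt]; ring
  have e1 : (midpoint ℝ (pt d x y) (pt d x' y') : E (d + 2)) 1 = (y + y') / 2 := by
    simp [midpoint_eq_smul_add, pt]; ring
  rw [e0, show (Fin.succ 0 : Fin (d + 2)) = 1 from rfl, e1, Real.dist_eq, Real.dist_eq, sq_abs,
    sq_abs] at h1
  nlinarith

lemma dual {d : ℕ} (X : Finset (E d)) (s : E d → E d) (hs : IsMatching X s) (p : E d → ℝ)
    (h1 : ∀ x ∈ X, ∀ y ∈ X, x ≠ y → dist x y ≤ p x + p y)
    (h2 : ∀ x ∈ X, dist x (s x) = p x + p (s x)) : IsMaxSum X s := by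
  have key : ∀ t, IsMatching X t → ∑ x ∈ X, p (t x) = ∑ x ∈ X, p x := fun t ht =>
    sum_nbij' t t (fun x hx => (ht x hx).1) (fun x hx => (ht x hx).1) (fun x hx => (ht x hx).2.2)
      (fun x hx => (ht x hx).2.2) (fun _ _ => rfl)
  refine ⟨hs, fun t ht => ?_⟩
  unfold weight
  rw [sum_congr rfl h2, sum_add_distrib, key s hs]
  have : ∑ x ∈ X, dist x (t x) ≤ ∑ x ∈ X, (p x + p (t x)) :=
    sum_le_sum fun x hx => h1 x hx _ (ht x hx).1 (ht x hx).2.1.symm
  rw [sum_add_distrib, key t ht] at this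
  linarith

def sg : Fin 6 → Fin 6 := ![3, 4, 5, 0, 1, 2]

theorem result (d : ℕ) (hd : 2 ≤ d) (ε : ℝ) (hε : 0 < ε) :
    ∃ (X : Finset (E d)) (r : ℝ) (s : E d → E d), Even X.card ∧ IsMinDist X r ∧ IsMaxSum X s ∧
      ¬ ∃ c, Metric.ball c (ε * r) ⊆ ⋂ x ∈ X, dball x (s x) := by
  classical
  obtain ⟨d, rfl⟩ : ∃ k, d = k + 2 := ⟨d - 2, by omega⟩
  obtain ⟨Y, hY⟩ : ∃ Y : ℝ, Y = 17 + 22 / ε := ⟨_, rfl⟩
  have hY1 : 17 ≤ Y := by have : 0 < 22 / ε := by positivity
                          linarith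
  obtain ⟨W, hW⟩ : ∃ W : ℝ, W = Y ^ 2 / 11 := ⟨_, rfl⟩
  have hW1 : 25 ≤ W := by rw [hW]; nlinarith
  have hYW : Y ^ 2 = 11 * W := by rw [hW]; ring
  let cx : Fin 6 → ℝ := ![0, 0, 0, W, W, -W]
  let cy : Fin 6 → ℝ := ![-1, 1, 0, Y, -Y, 0]
  let P : Fin 6 → E (d + 2) := fun i => pt d (cx i) (cy i)
  have hP : ∀ i j, dist (P i) (P j) = √((cx i - cx j) ^ 2 + (cy i - cy j) ^ 2) :=
    fun i j => pt_dist _ _ _ _ _
  have hge : ∀ i j, i ≠ j → 1 ≤ dist (P i) (P j) := by
    intro i j hij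
    rw [hP]
    apply Real.le_sqrt_of_sq_le
    fin_cases i <;> fin_cases j <;> first | exact absurd rfl hij | (simp only [cx, cy, Fin.zero_eta, Fin.mk_one, Fin.reduceFinMk, Matrix.cons_val, Matrix.cons_val_zero, Matrix.cons_val_one, Fin.isValue]; nlinarith)
  have hinj : Function.Injective P := by
    intro i j e
    by_contra h
    have := hge i j h
    rw [e, dist_self] at this; linarith
  let s : E (d + 2) → E (d + 2) := fun x => P (sg (Function.invFun P x))
  have hs : ∀ i, s (P i) = P (sg i) := fun i => by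
    simp only [s, Function.leftInverse_invFun hinj i]
  obtain ⟨s1, hs1⟩ : ∃ s1, s1 = √(W ^ 2 + (Y + 1) ^ 2) := ⟨_, rfl⟩
  obtain ⟨s0, hs0⟩ : ∃ s0, s0 = √(W ^ 2 + Y ^ 2) := ⟨_, rfl⟩
  have q1 : s1 ^ 2 = W ^ 2 + (Y + 1) ^ 2   := hs1 ▸ Real.sq_sqrt (by positivity)
  have q0 : s0 ^ 2 = W ^ 2 + Y ^ 2 := hs0 ▸ Real.sq_sqrt (by positivity)
  have p0 : W + 5 ≤ s0 := hs0 ▸ Real.le_sqrt_of_sq_le (by nlinarith)
  have p0' : s0 ≤ W + 6 := hs0 ▸ Real.sqrt_le_iff.2 ⟨by linarith, by nlinarith⟩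
  have p1 : s0 ≤ s1 := by rw [hs0, hs1]; exact Real.sqrt_le_sqrt (by nlinarith)
  have hYs : Y ≤ s0 := hs0 ▸ Real.le_sqrt_of_sq_le (by nlinarith)
  have p2 : s1 ≤ s0 + 1 := hs1 ▸ Real.sqrt_le_iff.2 ⟨by linarith, by nlinarith⟩
  have p3 : 1 ≤ 2 * W * (s1 - s0) := by
    by_contra hn
    have a : (s1 - s0) * (s1 + s0) = 2 * Y + 1 := by nlinarith
    have b : s1 + s0 ≤ 3 * W := by linarith
    nlinarith
  have hY2 : Y + 1 ≤ W := by nlinarith
  clear hs0 hs1
  let pp : Fin 6 → ℝ := ![1, 1, 1 - (s1 - s0), s1 - 1, s1 - 1, W - 1 + (s1 - s0)]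
  refine ⟨univ.image P, 1, s, ?_, ⟨⟨P 0, mem_image_of_mem _ (mem_univ _), P 2,
    mem_image_of_mem _ (mem_univ _), hinj.ne (by decide), ?_⟩, ?_⟩, ?_, ?_⟩
  · rw [card_image_of_injective _ hinj]; decide
  · rw [hP]; simp [cx, cy]
  · rintro t ⟨x, hx, y, hy, hne, rfl⟩
    obtain ⟨i, _, rfl⟩ := mem_image.1 hx
    obtain ⟨j, _, rfl⟩ := mem_image.1 hy
    exact hge i j fun e => hne (by rw [e])
  · refine dual _ _ ?_ (fun x => pp (Function.invFun P x)) ?_ ?_
    · intro x hx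
      obtain ⟨i, _, rfl⟩ := mem_image.1 hx
      rw [hs, hs]
      exact ⟨mem_image_of_mem _ (mem_univ _), hinj.ne ((by decide : ∀ i, sg i ≠ i) i),
        by rw [(by decide : ∀ i, sg (sg i) = i) i]⟩
    · intro x hx y hy hne
      obtain ⟨i, -, rfl⟩ := mem_image.1 hx
      obtain ⟨j, -, rfl⟩ := mem_image.1 hy
      have hij : i ≠ j := fun e => hne (by rw [e])
      clear hx hy hne
      simp only [Function.leftInverse_invFun hinj i, Function.leftInverse_invFun hinj j, hP]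
      wlog hlt : i < j generalizing i j
      · have := this j i hij.symm (lt_of_le_of_ne (not_lt.1 hlt) hij.symm)
        rw [add_comm (pp i), ← neg_sub (cx j), ← neg_sub (cy j), neg_sq, neg_sq]; exact this
      refine Real.sqrt_le_iff.2 ?_
      fin_cases i <;> fin_cases j <;> first | exact absurd hlt (by decide) | (simp only [cx, cy, pp, sg, Fin.zero_eta, Fin.mk_one, Fin.reduceFinMk, Matrix.cons_val, Matrix.cons_val_zero, Matrix.cons_val_one, Fin.isValue]; constructor <;> nlinarith)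
    · intro x hx
      obtain ⟨i, _, rfl⟩ := mem_image.1 hx
      simp only [hs, Function.leftInverse_invFun hinj i, Function.leftInverse_invFun hinj (sg i), hP]
      have hp : 0 ≤ pp i + pp (sg i) := by
        fin_cases i <;> (simp only [pp, sg, Fin.zero_eta, Fin.mk_one, Fin.reduceFinMk, Matrix.cons_val, Matrix.cons_val_zero, Matrix.cons_val_one, Fin.isValue]; linarith)
      rw [Real.sqrt_eq_iff_mul_self_eq (by positivity) hp]
      fin_cases i <;> (simp only [cx, cy, pp, sg, Fin.zero_eta, Fin.mk_one, Fin.reduceFinMk, Matrix.cons_val, Matrix.cons_val_zero, Matrix.cons_val_one, Fin.isValue]; nlinarith)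
  · rintro ⟨c, hc⟩
    have hz : ∀ z ∈ Metric.ball c (ε * 1), -(Y / W) ≤ z 0 ∧ z 0 ≤ 0 := by
      intro z hz
      have h := fun i => Set.mem_iInter₂.1 (hc hz) (P i) (mem_image_of_mem _ (mem_univ _))
      have h0 := h 0
      have h1 := h 1
      have h2 := h 2
      rw [hs] at h0 h1 h2
      have a0 := dball_pt _ _ _ _ _ _ h0
      have a1 := dball_pt _ _ _ _ _ _ h1
      have a2 := dball_pt _ _ _ _ _ _ h2
      simp only [cx, cy, sg, Fin.zero_eta, Fin.mk_one, Fin.reduceFinMk, Matrix.cons_val, Matrix.cons_val_zero, Matrix.cons_val_one, Fin.isValue] at a0 a1 a2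
      constructor
      · rw [neg_le, le_div_iff₀ (by linarith)]; nlinarith
      · nlinarith
    have m : ∀ t : ℝ, |t| < ε → c + EuclideanSpace.single 0 t ∈ Metric.ball c (ε * 1) := by
      intro t ht
      simpa [Metric.mem_ball, dist_eq_norm] using ht
    have z1 := (hz _ (m (ε / 2) (by rw [abs_of_pos (by linarith)]; linarith))).2
    have z2 := (hz _ (m (-(ε / 2)) (by rw [abs_neg, abs_of_pos (by linarith)]; linarith))).1
    simp at z1 z2
    have h3 : ε ≤ Y / W := by linarith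
    rw [le_div_iff₀ (by linarith)] at h3
    have h4 : ε * Y = 17 * ε + 22 := by rw [hY]; field_simp
    nlinarith

end Pool.Agent.Results.MP_70625d_co.NoBall
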